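import Pool.Agent.H.MP_743dc4_lc.Defs
import Pool.Agent.Lib.lead.CXBase

namespace Pool.Agent.H.MP_743dc4_lc
open Pool.Agent.Lib.CX Finset

def E (es : List (ℕ × ℕ)) (i l : ℕ) : Option (ℚ × ℚ) :=
  if i < es.length then (if l = (es.getD i (0, 0)).1 ∨ l = (es.getD i (0, 0)).2 then some (-1, 1) else none)
  else if l = i - es.length then some (0, 1) else none
def red (a : List Unit × List (ℕ × ℕ) × ℕ) : Inst :=
  ((List.range (a.2.1.length + a.1.length)).map fun i => (1, if i < a.2.1.length then 1 else 0),
    a.1.map fun _ => ((a.2.1.length + a.1.length : ℕ) : ℤ),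
    [(((a.1.length : ℕ) : ℤ), 0), (((a.1.length * (a.2.1.length + a.1.length) : ℕ) : ℤ), 1)],
    (List.range (a.2.1.length + a.1.length)).map fun i => (List.range a.1.length).map (E a.2.1 i),
    a.1.map fun _ => [some (-1, 1), some (0, ((a.2.1.length + a.1.length : ℕ) : ℤ))],
    ((a.2.2 : ℤ) - a.1.length - a.2.1.length : ℤ))

theorem ent_A (n : ℕ) (es : List (ℕ × ℕ)) {i l : ℕ} (hi : i < es.length + n) (hl : l < n) :
    ent ((List.range (es.length + n)).map fun i => (List.range n).map (E es i)) i l = E es i l := by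
  simp [ent, hl, hi]

theorem cap0 {M : Arcs} (h : ∀ r ∈ M, ∀ e ∈ r, 0 ≤ e.elim 0 (·.2)) (u v : ℕ) : 0 ≤ cap M u v := by
  simp only [cap, ent, List.getD_eq_getElem?_getD]
  cases a : M[u]? with
  | none => simp
  | some r =>
    simp only [Option.getD_some]
    cases b : r[v]? with
    | none => simp
    | some e => exact h r (List.mem_of_getElem? a) e (List.mem_of_getElem? b)

theorem valid (a : List Unit × List (ℕ × ℕ) × ℕ) : OutDeg2 (red a) := by
  refine ⟨⟨by simp, by simp; intros; positivity, by simp; positivity, fun u v => ⟨cap0 ?_ u v, cap0 ?_ u v⟩⟩,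
    fun j hj => ?_, fun l _ => (card_filter_le _ _).trans (by simp)⟩
  · simp only [List.forall_mem_map, E]
    intros; split_ifs <;> simp
  · simp; intros; positivity
  simp only [List.length_map, List.length_range] at hj ⊢
  refine (card_le_card (t := {if j < a.2.1.length then (a.2.1.getD j (0, 0)).1 else j - a.2.1.length,
    (a.2.1.getD j (0, 0)).2}) fun l hl => ?_).trans card_le_two
  rw [mem_filter, mem_range] at hl
  rw [ent_A _ _ hj hl.1, E] at hl
  split_ifs at hl ⊢ <;> simp_all

theorem yes_iff (n : List Unit) (es : List (ℕ × ℕ)) (k : ℕ) : Yes (red (n, es, k)) ↔ ∃ (x y : ℕ → ℕ → ℝ) (p : ℕ → ℝ),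
      (∀ i < es.length + n.length, ∀ l < n.length, 0 ≤ x i l ∧ x i l ≤ ((E es i l).elim 0 (·.2) : ℚ)) ∧
      (∀ l < n.length, (0 ≤ y l 0 ∧ y l 0 ≤ 1) ∧ 0 ≤ y l 1 ∧ y l 1 ≤ es.length + n.length) ∧
      (∀ i < es.length + n.length, ∑ l ∈ range n.length, x i l ≤ 1) ∧
      (∀ l < n.length, ∑ i ∈ range (es.length + n.length), x i l = y l 0 + y l 1 ∧
        ∑ i ∈ range (es.length + n.length), x i l ≤ es.length + n.length ∧
        ∑ i ∈ range es.length, x i l = p l * (y l 0 + y l 1)) ∧
      ((∑ l ∈ range n.length, y l 0 ≤ n.length ∧ ∑ l ∈ range n.length, p l * y l 0 ≤ 0) ∧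
        ∑ l ∈ range n.length, y l 1 ≤ n.length * (es.length + n.length) ∧
        ∑ l ∈ range n.length, p l * y l 1 ≤ ∑ l ∈ range n.length, y l 1) ∧
      ∑ l ∈ range n.length, (∑ i ∈ range (es.length + n.length), ((E es i l).elim 0 (·.1) : ℚ) * x i l + -y l 0) ≤
        k - n.length - es.length := by
  simp only [Yes, red, List.length_map, List.length_range]
  refine exists₃_congr fun x y p => and_congr ?_ (and_congr ?_ (and_congr ?_ (and_congr ?_ (and_congr ?_ ?_))))
  · exact forall₂_congr fun i hi => forall₂_congr fun l hl => by rw [cap, ent_A _ _ hi hl]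
  · simp only [List.length_cons, List.length_nil, Nat.forall_lt_succ_right, not_lt_zero, IsEmpty.forall_iff,
      implies_true, true_and]
    exact forall₂_congr fun l hl => by simp [cap, ent, hl]
  · exact forall₂_congr fun j hj => by simp [hj]
  · refine forall₂_congr fun l hl => and_congr (by simp [sum_range_succ]) (and_congr (by simp [hl]) ?_)
    rw [sum_range_add, sum_eq_zero (s := range n.length) fun i hi => by simp [mem_range.1 hi],
      sum_congr rfl (g := fun i => x i l) fun i hi => by simp [mem_range.1 hi, (mem_range.1 hi).trans_le]]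
    simp [sum_range_succ]
  · simp [Nat.le_one_iff_eq_zero_or_eq_one]
  · rw [sum_congr rfl]
    · simp; rfl
    · intro l hl
      have hl := mem_range.1 hl
      congr 1
      · exact sum_congr rfl fun j hj => by rw [cost, ent_A _ _ (mem_range.1 hj) hl]
      · simp [sum_range_succ, cost, ent, hl]

theorem key (n : List Unit) (es : List (ℕ × ℕ)) (k : ℕ) (h1 : ∀ e ∈ es, e.1 < e.2 ∧ e.2 < n.length) :
    (∃ S : Finset ℕ, (∀ x ∈ S, x < n.length) ∧ (∀ e ∈ es, e.1 ∈ S ∨ e.2 ∈ S) ∧ S.card ≤ k) ↔ Yes (red (n, es, k)) := by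
  have hm : ∀ u < es.length, es.getD u (0, 0) ∈ es := fun u hu => by
    rw [List.getD_eq_getElem _ _ hu]; exact List.getElem_mem _
  rw [yes_iff]
  constructor
  · rintro ⟨S, s1, s2, s3⟩
    let t : ℕ → ℕ := fun j => if j < es.length then
      (if (es.getD j (0, 0)).1 ∈ S then (es.getD j (0, 0)).1 else (es.getD j (0, 0)).2) else j - es.length
    let x : ℕ → ℕ → ℝ := fun j l => if l = t j ∧ (j < es.length ↔ l ∈ S) then 1 else 0
    have t1 : ∀ j < es.length, t j ∈ S ∧ E es j (t j) = some (-1, 1) := fun j hj => by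
      have := s2 _ (hm j hj)
      simp only [t, E, hj, if_true]
      split_ifs with a b b
      exacts [⟨a, rfl⟩, (b (.inl rfl)).elim, ⟨this.resolve_left a, rfl⟩, (b (.inr rfl)).elim]
    have t2 : ∀ j, ¬ j < es.length → E es j (t j) = some (0, 1) := fun j hj => by simp [t, E, hj]
    have y0 : ∀ j l, 0 ≤ x j l ∧ x j l ≤ 1 := fun l j => by simp only [x]; split_ifs <;> simp
    have y1 : ∀ l, 0 ≤ ∑ j ∈ range (es.length + n.length), x j l ∧
        ∑ j ∈ range (es.length + n.length), x j l ≤ es.length + n.length := fun l =>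
      ⟨sum_nonneg fun j _ => (y0 j l).1, (sum_le_sum fun j _ => (y0 j l).2).trans (by simp)⟩
    have y2 : ∀ l < n.length, l ∉ S → ∑ j ∈ range (es.length + n.length), x j l = 1 := fun l hl h => by
      rw [sum_eq_single (es.length + l) (fun j _ e => if_neg fun c => ?_) (by simp [hl])]
      · simp [x, t, h]
      · simp only [h, iff_false] at c
        have := c.1
        simp only [t, c.2, if_false] at this
        omega
    have y3 : ∀ (f : ℕ → ℝ) j, ∑ l ∈ range n.length, f l * x j l = if t j < n.length then f (t j) * x j (t j) else 0 :=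
      fun f j => by
        simp only [← mem_range]
        rw [← sum_ite_eq' (range n.length) (t j) fun l => f l * x j l]
        exact sum_congr rfl fun l _ => by by_cases e : l = t j <;> simp [x, e]
    refine ⟨x, fun l i => if i = 0 then (if l ∈ S then 0 else 1) else
      if l ∈ S then ∑ j ∈ range (es.length + n.length), x j l else 0, fun l => if l ∈ S then 1 else 0,
      fun j hj l hl => ⟨(y0 j l).1, ?_⟩, fun l hl => ?_, fun j hj => ?_, fun l hl => ?_, ⟨⟨?_, ?_⟩, ?_, ?_⟩, ?_⟩
    · by_cases e : l = t j
      · by_cases c : j < es.length <;> simp [e, t1, t2, c, y0]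
      · simp only [x, e, false_and, if_false, E]; split_ifs <;> simp
    · by_cases h : l ∈ S <;> simp [h, y1 l]; positivity
    · have := y3 (fun _ => 1) j
      simp only [one_mul] at this
      rw [this]; split_ifs <;> simp [y0]
    · by_cases h : l ∈ S
      · simp only [h, y1 l, if_true, one_ne_zero, if_false, zero_add, one_mul, true_and]
        rw [sum_range_add, sum_eq_zero (s := range n.length) fun i _ => by simp [x, h], add_zero]
      · refine ⟨by simp [h, y2 l hl h], (y1 l).2, ?_⟩
        rw [sum_eq_zero fun i hi => by simp [x, h, mem_range.1 hi]]; simp [h]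
    · refine (sum_le_card_nsmul _ _ (1 : ℝ) fun l _ => ?_).trans (by simp)
      by_cases h : l ∈ S <;> simp [h]
    · exact (sum_eq_zero fun l _ => by by_cases h : l ∈ S <;> simp [h]).le
    · refine (sum_le_card_nsmul _ _ (es.length + n.length : ℝ) fun l _ => ?_).trans (by simp [mul_add])
      by_cases h : l ∈ S <;> simp [h, y1 l]; positivity
    · exact sum_le_sum fun l _ => by by_cases h : l ∈ S <;> simp [h]
    · rw [sum_add_distrib, sum_comm, sum_range_add]
      have a1 : ∑ j ∈ range es.length, ∑ l ∈ range n.length, (((E es j l).elim 0 (·.1) : ℚ) : ℝ) * x j l = -es.length := by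
        rw [sum_congr rfl (g := fun _ => -1) fun j hj => ?_]
        · simp
        · have hj := mem_range.1 hj
          rw [y3]; simp [t1 j hj, s1 _ (t1 j hj).1, x, hj]
      have a2 : ∑ j ∈ range n.length, ∑ l ∈ range n.length,
          (((E es (es.length + j) l).elim 0 (·.1) : ℚ) : ℝ) * x (es.length + j) l = 0 :=
        sum_eq_zero fun j hj => by rw [y3]; simp [t2]
      have a3 : ∑ l ∈ range n.length, (if l ∈ S then (0 : ℝ) else 1) = n.length - S.card := by
        rw [sum_ite, ← sdiff_eq_filter]
        simp [cast_card_sdiff (show S ⊆ range n.length from fun x hx => mem_range.2 (s1 x hx))]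
      have a4 : (S.card : ℝ) ≤ k := by exact_mod_cast s3
      simp only [a1, a2, if_true, sum_neg_distrib, a3]
      linarith
  · rintro ⟨x, y, p, c1, c2, c0, c3, ⟨⟨-, c4⟩, -⟩, c5⟩
    let Z := (range n.length).filter fun l => y l 0 ≤ 0
    let U := (range es.length).filter fun j => (es.getD j (0, 0)).1 ∉ Z ∧ (es.getD j (0, 0)).2 ∉ Z
    have y1 : ∀ l < n.length, ∀ j < es.length, x j l ≤ p l * (y l 0 + y l 1) := fun l hl j hj =>
      (single_le_sum (fun j hj => (c1 j (by simp at hj; omega) l hl).1) (mem_range.2 hj)).trans (c3 l hl).2.2.le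
    have p1 : ∀ l < n.length, 0 ≤ p l * y l 0 := fun l hl => by
      have : 0 ≤ p l * (y l 0 + y l 1) := (sum_nonneg fun j hj => (c1 j (by simp at hj; omega) l hl).1).trans
        (c3 l hl).2.2.le
      have := c2 l hl
      by_contra h
      have : p l < 0 := by by_contra h'; exact h (mul_nonneg (not_lt.1 h') this.1.1)
      nlinarith
    have a1 : ∀ j ∈ U, ∀ l < n.length, x j l = 0 := fun j hj l hl => by
      simp only [U, mem_filter, mem_range] at hj
      have b1 := c1 j (by omega) l hl
      by_cases h : l ∈ Z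
      · rw [E, if_pos hj.1, if_neg (by rintro (rfl | rfl); exacts [hj.2.1 h, hj.2.2 h])] at b1
        simp at b1; linarith
      · have b2 : 0 < y l 0 := by simpa [Z, hl] using h
        have b4 := single_le_sum (fun l hl => p1 l (mem_range.1 hl)) (mem_range.2 hl)
        have b5 := y1 l hl j hj.1
        have b6 : p l = 0 := (mul_eq_zero.1 (le_antisymm (b4.trans c4) (p1 l hl))).resolve_right b2.ne'
        rw [b6, zero_mul] at b5
        linarith
    have a2 : ∀ j ∈ range (es.length + n.length), (if j ∈ range es.length \ U then -1 else 0) ≤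
        ∑ l ∈ range n.length, (((E es j l).elim 0 (·.1) : ℚ) : ℝ) * x j l := fun j hj => by
      have hj := mem_range.1 hj
      split_ifs with h
      · refine le_trans (neg_le_neg (c0 j hj)) ?_
        rw [← sum_neg_distrib]
        refine sum_le_sum fun l hl => ?_
        have := (c1 j hj l (mem_range.1 hl)).1
        unfold E; split_ifs <;> simp [this]
      · refine (sum_eq_zero fun l hl => ?_).ge
        by_cases c : j < es.length
        · rw [a1 j (by simpa [c] using h) l (mem_range.1 hl), mul_zero]
        · unfold E; split_ifs <;> simp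
    have a3 : ∀ l ∈ range n.length, (if l ∈ range n.length \ Z then -1 else 0) ≤ -y l 0 := fun l hl => by
      have := c2 l (mem_range.1 hl)
      split_ifs with h
      · linarith
      · have : y l 0 ≤ 0 := by simpa [Z, mem_range.1 hl] using h
        linarith
    rw [sum_add_distrib, sum_comm] at c5
    have a4 := sum_le_sum a2
    have a5 := sum_le_sum a3
    rw [sum_ite_mem, inter_eq_right.2 (sdiff_subset.trans (by simp)), sum_const, nsmul_eq_mul,
      cast_card_sdiff (filter_subset _ _), card_range] at a4 a5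
    refine ⟨Z ∪ U.image fun j => (es.getD j (0, 0)).1, fun v hv => ?_, fun e he => ?_, (card_union_le _ _).trans ?_⟩
    · rcases mem_union.1 hv with h | h
      · exact mem_range.1 (mem_filter.1 h).1
      · obtain ⟨j, hj, rfl⟩ := mem_image.1 h
        have := h1 _ (hm j (mem_range.1 (mem_filter.1 hj).1))
        omega
    · obtain ⟨j, hj, rfl⟩ := List.getElem_of_mem he
      by_contra h
      simp only [mem_union, not_or] at h
      exact h.1.2 (mem_image.2 ⟨j, by simp [U, hj, h.1.1, h.2.1], by simp [hj]⟩)
    · have a6 := card_image_le (s := U) (f := fun j => (es.getD j (0, 0)).1)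
      have a7 : (Z.card + U.card : ℝ) ≤ k := by linarith
      norm_cast at a7
      omega

@[fun_prop] theorem ptZQ {α : Type} [Enc α] {f : α → ℤ} (hf : PT f) : PT fun a => (f a : ℚ) :=
  (show PT fun a => (f a, (1 : ℕ)) by fun_prop).cast fun _ => rfl

set_option synthInstance.maxSize 2000 in
theorem hard : NPHard fun a : {a : Inst // OutDeg2 a} => Yes a.1 := by
  have h : PT red := by unfold red E; fun_prop
  exact NPHard.of_vc (fun a => ⟨red a, valid a⟩) (PT.subtype h valid) fun n es k h1 _ _ => key n es k h1

end Pool.Agent.H.MP_743dc4_lc
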