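import Pool.Agent.Lib.lead.CXRat

namespace Pool.Agent.H.MP_743dc4_lc
open Finset

/-- a table of arcs: entry `none` = no arc, `some (c, u)` = an arc with cost `c` and capacity `u` -/
abbrev Arcs := List (List (Option (ℚ × ℚ)))
def ent (M : Arcs) (u v : ℕ) : Option (ℚ × ℚ) := (M.getD u []).getD v none
def cost (M : Arcs) (u v : ℕ) : ℚ := (ent M u v).elim 0 (·.1)
def cap (M : Arcs) (u v : ℕ) : ℚ := (ent M u v).elim 0 (·.2)

/-- one quality: inputs (capacity, quality value), pools (capacity), outputs (capacity, quality bound),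
arcs input-pool, arcs pool-output, bound on the objective -/
abbrev Inst := List (ℚ × ℚ) × List ℚ × List (ℚ × ℚ) × Arcs × Arcs × ℚ

/-- all capacities are nonnegative, and every input and every pool has out-degree at most two -/
def OutDeg2 : Inst → Prop
  | (I, L, J, A, B, _) => ((∀ c ∈ I, 0 ≤ c.1) ∧ (∀ c ∈ L, 0 ≤ c) ∧ (∀ c ∈ J, 0 ≤ c.1) ∧
      ∀ u v, 0 ≤ cap A u v ∧ 0 ≤ cap B u v) ∧
    (∀ i < I.length, ((range L.length).filter fun l => (ent A i l).isSome).card ≤ 2) ∧
    ∀ l < L.length, ((range J.length).filter fun j => (ent B l j).isSome).card ≤ 2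

/-- there is a feasible solution of cost at most the bound (flows vanish off the arcs, where `cap = 0`) -/
def Yes : Inst → Prop
  | (I, L, J, A, B, k) => ∃ (x y : ℕ → ℕ → ℝ) (p : ℕ → ℝ),
    (∀ i < I.length, ∀ l < L.length, 0 ≤ x i l ∧ x i l ≤ cap A i l) ∧
    (∀ l < L.length, ∀ j < J.length, 0 ≤ y l j ∧ y l j ≤ cap B l j) ∧
    (∀ i < I.length, ∑ l ∈ range L.length, x i l ≤ (I.getD i 0).1) ∧
    (∀ l < L.length, ∑ i ∈ range I.length, x i l = ∑ j ∈ range J.length, y l j ∧
      ∑ i ∈ range I.length, x i l ≤ L.getD l 0 ∧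
      ∑ i ∈ range I.length, (I.getD i 0).2 * x i l = p l * ∑ j ∈ range J.length, y l j) ∧
    (∀ j < J.length, ∑ l ∈ range L.length, y l j ≤ (J.getD j 0).1 ∧
      ∑ l ∈ range L.length, p l * y l j ≤ (J.getD j 0).2 * ∑ l ∈ range L.length, y l j) ∧
    ∑ l ∈ range L.length, (∑ i ∈ range I.length, cost A i l * x i l + ∑ j ∈ range J.length, cost B l j * y l j) ≤ k

end Pool.Agent.H.MP_743dc4_lc
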